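import Pool.Agent.H40.G16

set_option autoImplicit false

namespace Pool.Agent.Results.MP_f0e779_lc.Model

open Pool.Agent.H40.Bspt Pool.Agent.H40.Jz Pool.Agent.H40.Gn Pool.Agent.H40.Zt

theorem result : ∃ (M : Type) (E : M → M → Prop) (ν : ℕ → M), IsZF E ∧ Numer E ν ∧
    Nonempty (Reals E) ∧ ∀ ℛ : Reals E,
      SeqProd E (fun X T => Compact E X T ∧ Metrizable ℛ X T) (Compact E) ∧
      ¬ SeqProd E (fun X T => Compact E X T ∧ Metrizable ℛ X T) (Metrizable ℛ) := by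
  obtain ⟨M, E, Q, S, B⟩ := ex_bm
  have h := Q.zf
  refine ⟨M, E, Q.ν, h, Q.num, ⟨Q.reals⟩, fun ℛ => ?_⟩
  have k : SeqProd E (fun X T => Compact E X T ∧ Metrizable ℛ X T) (Compact E) :=
    fun X T P R i j k => B.tych h X T P R i j fun n => ⟨(k n).1, (k n).2.1, met_t2 h ℛ (k n).2.2⟩
  exact ⟨k, fun c => S.nsep h ℛ fun X T P R i j l p =>
    S.sep h ℛ P R (pi_top h p) (k X T P R i j l p) (c X T P R i j l p)⟩

end Pool.Agent.Results.MP_f0e779_lc.Model
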